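import Pool.Agent.N311.SH.Stm

/-!
# Project SH (helper311), leaf C1: boundary extension of the Riemann map (by helper565)
-/

set_option autoImplicit false
open Set Metric Filter Topology MeasureTheory

namespace Pool.Agent.N565.SH

open Pool.Agent.N311.SH

namespace C1

/-- the arc -/
noncomputable def ga (ζ : ℂ) (r θ : ℝ) : ℂ := ζ + r * (-ζ) * Complex.exp (θ * Complex.I)

theorem ga_sub (ζ : ℂ) (hζ : ‖ζ‖ = 1) {r : ℝ} (hr : 0 < r) (θ : ℝ) : ‖ga ζ r θ - ζ‖ = r := by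
  rw [ga, add_sub_cancel_left, norm_mul, norm_mul, Complex.norm_exp_ofReal_mul_I, norm_neg, hζ,
    Complex.norm_real, Real.norm_of_nonneg hr.le, mul_one, mul_one]

theorem ga_norm (ζ : ℂ) (hζ : ‖ζ‖ = 1) (r θ : ℝ) :
    ‖ga ζ r θ‖ ^ 2 = 1 - 2 * r * Real.cos θ + r ^ 2 := by
  have h1 : ga ζ r θ = ζ * (1 - r * Complex.exp (θ * Complex.I)) := by
    rw [ga]; ring
  rw [h1, norm_mul, hζ, one_mul, ← Complex.normSq_eq_norm_sq, Complex.normSq_apply]
  have hre : (1 - (r : ℂ) * Complex.exp (θ * Complex.I)).re = 1 - r * Real.cos θ := by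
    simp [Complex.exp_ofReal_mul_I_re]
  have him : (1 - (r : ℂ) * Complex.exp (θ * Complex.I)).im = - (r * Real.sin θ) := by
    simp [Complex.exp_ofReal_mul_I_im]
  rw [hre, him]
  have := Real.sin_sq_add_cos_sq θ
  nlinarith [this]

theorem ga_mem {ζ : ℂ} (hζ : ‖ζ‖ = 1) {r : ℝ} (hr : 0 < r) (θ : ℝ) :
    ga ζ r θ ∈ ball (0 : ℂ) 1 ↔ r / 2 < Real.cos θ := by
  have h := ga_norm ζ hζ r θ
  rw [mem_ball_zero_iff]
  constructor
  · intro h1
    have h2 : ‖ga ζ r θ‖ ^ 2 < 1 := by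
      have := norm_nonneg (ga ζ r θ)
      nlinarith
    rw [h] at h2
    have h3 : r * (r - 2 * Real.cos θ) < 0 := by nlinarith
    have h4 : r - 2 * Real.cos θ < 0 := by
      by_contra hc
      push Not at hc
      have := mul_nonneg hr.le hc
      linarith
    linarith
  · intro h1
    have h2 : ‖ga ζ r θ‖ ^ 2 < 1 := by
      rw [h]
      nlinarith
    by_contra hc
    push Not at hc
    nlinarith

theorem ga_surj {ζ : ℂ} (hζ : ‖ζ‖ = 1) {r : ℝ} (hr : 0 < r) {z : ℂ} (hz : ‖z - ζ‖ = r) :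
    ∃ θ : ℝ, -Real.pi < θ ∧ θ ≤ Real.pi ∧ z = ga ζ r θ := by
  have hζ0 : ζ ≠ 0 := by
    rintro rfl
    simp at hζ
  have hr0 : (r : ℂ) ≠ 0 := by exact_mod_cast hr.ne'
  set u : ℂ := (z - ζ) / (r * (-ζ)) with hu
  have hun : ‖u‖ = 1 := by
    rw [hu, norm_div, norm_mul, norm_neg, hζ, hz, Complex.norm_real, Real.norm_of_nonneg hr.le,
      mul_one, div_self hr.ne']
  refine ⟨Complex.arg u, Complex.neg_pi_lt_arg u, Complex.arg_le_pi u, ?_⟩
  have h1 : Complex.exp (Complex.arg u * Complex.I) = u := by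
    have := Complex.norm_mul_exp_arg_mul_I u
    rwa [hun, Complex.ofReal_one, one_mul] at this
  rw [ga, h1, hu]
  field_simp
  ring

/-- the oscillation of `φ` on the arc -/
theorem osc {φ : ℂ → ℂ} (hφ : DifferentiableOn ℂ φ (ball 0 1)) {ζ : ℂ} (hζ : ‖ζ‖ = 1) {r ε : ℝ}
    (hr : 0 < r) (hε : 0 ≤ ε)
    (hL : ∫⁻ θ in Ioo (-Real.pi) Real.pi, (ball (0 : ℂ) 1).indicator
      (fun z => ENNReal.ofReal (‖deriv φ z‖ * r)) (ζ + r * (-ζ) * Complex.exp (θ * Complex.I)) ≤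
        ENNReal.ofReal ε) {a b : ℝ} (hab : a ≤ b) (ha1 : -Real.pi < a) (hb1 : b ≤ Real.pi)
    (ha : ga ζ r a ∈ ball (0 : ℂ) 1) (hb : ga ζ r b ∈ ball (0 : ℂ) 1) :
    ‖φ (ga ζ r b) - φ (ga ζ r a)‖ ≤ ε := by
  have hca := (ga_mem hζ hr a).1 ha
  have hcb := (ga_mem hζ hr b).1 hb
  have ha2 : -(Real.pi / 2) < a := by
    by_contra hc
    push Not at hc
    have h1 : Real.cos a ≤ 0 := by
      rw [← Real.cos_neg]
      exact Real.cos_nonpos_of_pi_div_two_le_of_le (by linarith) (by linarith)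
    linarith
  have hb2 : b < Real.pi / 2 := by
    by_contra hc
    push Not at hc
    have h1 : Real.cos b ≤ 0 := Real.cos_nonpos_of_pi_div_two_le_of_le hc (by linarith)
    linarith
  have hmem : ∀ θ ∈ Icc a b, ga ζ r θ ∈ ball (0 : ℂ) 1 := by
    intro θ hθ
    rw [ga_mem hζ hr]
    have h1 := strictConcaveOn_cos_Icc.concaveOn.min_le_of_mem_Icc
      (x := a) (y := b) (z := θ) ⟨ha2.le, by linarith⟩ ⟨by linarith, hb2.le⟩ hθ
    exact (lt_min hca hcb).trans_le h1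
  have hγ : ∀ θ : ℝ, HasDerivAt (ga ζ r) (r * (-ζ) * (Complex.exp (θ * Complex.I) * Complex.I))
      θ := by
    intro θ
    have h1 : HasDerivAt (fun θ : ℝ => (θ : ℂ) * Complex.I) Complex.I θ := by
      simpa using (Complex.ofRealCLM.hasDerivAt (x := θ)).mul_const Complex.I
    have h2 := (h1.cexp).const_mul ((r : ℂ) * (-ζ))
    exact h2.const_add ζ
  have hga : Continuous (ga ζ r) := by
    unfold ga
    fun_prop
  set F' : ℝ → ℂ := fun θ => deriv φ (ga ζ r θ) *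
    (r * (-ζ) * (Complex.exp (θ * Complex.I) * Complex.I)) with hF'
  have hF : ∀ θ ∈ uIcc a b, HasDerivAt (fun θ => φ (ga ζ r θ)) (F' θ) θ := by
    intro θ hθ
    rw [uIcc_of_le hab] at hθ
    have h1 : DifferentiableAt ℂ φ (ga ζ r θ) :=
      (hφ _ (hmem θ hθ)).differentiableAt (isOpen_ball.mem_nhds (hmem θ hθ))
    exact h1.hasDerivAt.comp θ (hγ θ)
  have hdc : ContinuousOn (deriv φ) (ball 0 1) :=
    (hφ.analyticOnNhd isOpen_ball).deriv.continuousOn
  have hcont : ContinuousOn F' (Icc a b) := by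
    refine ContinuousOn.mul (hdc.comp hga.continuousOn hmem) ?_
    fun_prop
  have hint : IntervalIntegrable F' volume a b :=
    (hcont.mono (by rw [uIcc_of_le hab])).intervalIntegrable
  have hFTC := intervalIntegral.integral_eq_sub_of_hasDerivAt hF hint
  have hnF : ∀ θ, ‖F' θ‖ = ‖deriv φ (ga ζ r θ)‖ * r := by
    intro θ
    rw [hF']
    simp only [norm_mul, norm_neg, hζ, Complex.norm_real, Real.norm_of_nonneg hr.le,
      Complex.norm_exp_ofReal_mul_I, Complex.norm_I, mul_one]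
  have hle : ‖φ (ga ζ r b) - φ (ga ζ r a)‖ₑ ≤ ENNReal.ofReal ε := by
    rw [← hFTC, intervalIntegral.integral_of_le hab]
    refine (enorm_integral_le_lintegral_enorm _).trans (le_trans ?_ hL)
    calc ∫⁻ θ in Ioc a b, ‖F' θ‖ₑ ≤ ∫⁻ θ in Ioc a b, (ball (0 : ℂ) 1).indicator
          (fun z => ENNReal.ofReal (‖deriv φ z‖ * r))
            (ζ + r * (-ζ) * Complex.exp (θ * Complex.I)) := by
          refine setLIntegral_mono' measurableSet_Ioc fun θ hθ => ?_
          have h1 : ζ + r * (-ζ) * Complex.exp (θ * Complex.I) ∈ ball (0 : ℂ) 1 :=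
            hmem θ (Ioc_subset_Icc_self hθ)
          rw [indicator_of_mem h1, ← ofReal_norm, hnF]
          exact le_rfl
      _ ≤ _ := by
          refine lintegral_mono_set fun θ hθ => ?_
          exact ⟨by linarith [hθ.1], by linarith [hθ.2, Real.pi_pos]⟩
  rw [← ofReal_norm] at hle
  exact (ENNReal.ofReal_le_ofReal_iff hε).1 hle

/-- STEP A -/
theorem stepA (h : S_LA) {f : ℂ ≃ₜ ℂ} {φ ψ : ℂ → ℂ} (hB : Bi f φ ψ) {ζ : ℂ} (hζ : ‖ζ‖ = 1)
    {η : ℝ} (hη : 0 < η) : ∃ r : ℝ, 0 < r ∧ ∃ n : ℂ, ∀ z ∈ ball (0 : ℂ) 1, ‖z - ζ‖ < r →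
      ‖f.symm (φ z) - n‖ < η := by
  set d : ℝ := min (1 / 3) (η ^ 2 / 12) with hd
  have hη2 : 0 < η ^ 2 := by positivity
  have hd0 : 0 < d := lt_min (by norm_num) (by positivity)
  have hd3 : 3 * d ≤ 1 := by
    have : d ≤ 1 / 3 := min_le_left _ _
    linarith
  have hd6 : 6 * d < η ^ 2 := by
    have : d ≤ η ^ 2 / 12 := min_le_right _ _
    linarith
  set D : Set ℂ := ball 0 1 with hD
  have hG : ∀ z ∈ D, f.symm (φ z) ∈ D := by
    intro z hz
    obtain ⟨x, hx, hx2⟩ := hB.mφ hz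
    rw [← hx2, Homeomorph.symm_apply_apply]
    exact hx
  have hg : ∀ x ∈ D, ψ (f x) ∈ D := fun x hx => hB.mψ (mem_image_of_mem f hx)
  have hGg : ∀ x ∈ D, f.symm (φ (ψ (f x))) = x := by
    intro x hx
    rw [hB.right _ (mem_image_of_mem f hx), Homeomorph.symm_apply_apply]
  have hgG : ∀ z ∈ D, ψ (f (f.symm (φ z))) = z := by
    intro z hz
    rw [Homeomorph.apply_symm_apply]
    exact hB.left z hz
  have hgc : ContinuousOn (fun x => ψ (f x)) D :=
    hB.dψ.continuousOn.comp f.continuous.continuousOn (mapsTo_image f D)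
  -- uniform continuity
  obtain ⟨ε, hε0, hε⟩ : ∃ ε : ℝ, 0 < ε ∧ ∀ a ∈ f '' closedBall 0 1, ∀ b ∈ f '' closedBall 0 1,
      ‖a - b‖ ≤ ε → ‖f.symm a - f.symm b‖ < d := by
    have h1 : IsCompact (f '' closedBall (0 : ℂ) 1) :=
      (isCompact_closedBall 0 1).image f.continuous
    have h2 := h1.uniformContinuousOn_of_continuous (f.symm.continuous.continuousOn)
    rw [Metric.uniformContinuousOn_iff] at h2
    obtain ⟨δ, hδ, h3⟩ := h2 d hd0
    refine ⟨δ / 2, by positivity, fun a ha b hb hab => ?_⟩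
    have := h3 a ha b hb (by rw [dist_eq_norm]; linarith)
    rwa [dist_eq_norm] at this
  -- distance from the compact set
  obtain ⟨R, hR0, hR1, hR2, hR3⟩ : ∃ R : ℝ, 0 < R ∧ R ≤ 1 ∧ R ≤ ‖ψ (f 0) - ζ‖ ∧
      ∀ z ∈ D, ‖z - ζ‖ < R → 1 - d < ‖f.symm (φ z)‖ := by
    have hsub : closedBall (0 : ℂ) (1 - d) ⊆ D := closedBall_subset_ball (by linarith)
    have h1 : IsCompact ((fun x => ψ (f x)) '' closedBall (0 : ℂ) (1 - d)) :=
      (isCompact_closedBall 0 _).image_of_continuousOn (hgc.mono hsub)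
    have h2 : ζ ∉ (fun x => ψ (f x)) '' closedBall (0 : ℂ) (1 - d) := by
      rintro ⟨x, hx, hx2⟩
      have := hg x (hsub hx)
      simp only at hx2
      rw [hx2, hD, mem_ball_zero_iff, hζ] at this
      exact lt_irrefl _ this
    obtain ⟨R0, hR0, hR⟩ := Metric.mem_nhds_iff.1 (h1.isClosed.isOpen_compl.mem_nhds h2)
    have h0 : 0 < ‖ψ (f 0) - ζ‖ := by
      rw [norm_pos_iff, sub_ne_zero]
      intro hc
      have := hg 0 (mem_ball_self one_pos)
      rw [hc, hD, mem_ball_zero_iff, hζ] at this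
      exact lt_irrefl _ this
    refine ⟨min (min R0 1) ‖ψ (f 0) - ζ‖, lt_min (lt_min hR0 one_pos) h0,
      (min_le_left _ _).trans (min_le_right _ _), min_le_right _ _, fun z hz hzr => ?_⟩
    by_contra hc
    push Not at hc
    have h3 : z ∈ ball ζ R0 := by
      rw [mem_ball, dist_eq_norm]
      exact hzr.trans_le ((min_le_left _ _).trans (min_le_left _ _))
    exact hR h3 ⟨f.symm (φ z), mem_closedBall_zero_iff.2 hc, hgG z hz⟩
  -- the length-area principle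
  have hinj : InjOn φ D := by
    intro a ha b hb hab
    rw [← hB.left a ha, ← hB.left b hb, hab]
  have hvol : volume (φ '' D) < ⊤ := by
    have h1 : φ '' D ⊆ f '' closedBall 0 1 := by
      rintro _ ⟨z, hz, rfl⟩
      obtain ⟨x, hx, hx2⟩ := hB.mφ hz
      exact ⟨x, ball_subset_closedBall hx, hx2⟩
    exact (measure_mono h1).trans_lt
      ((isCompact_closedBall (0 : ℂ) 1).image f.continuous).measure_lt_top
  obtain ⟨r, hr0, hrR, hL⟩ := h D φ isOpen_ball hB.dφ hinj hvol ζ (-ζ) (by rw [norm_neg, hζ]) ε R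
    hε0 hR0
  -- oscillation
  have hX : ∀ z₁ ∈ D, ∀ z₂ ∈ D, ‖z₁ - ζ‖ = r → ‖z₂ - ζ‖ = r →
      ‖f.symm (φ z₁) - f.symm (φ z₂)‖ < d := by
    intro z₁ h1 z₂ h2 e1 e2
    have hm : ∀ z ∈ D, φ z ∈ f '' closedBall 0 1 := by
      intro z hz
      obtain ⟨x, hx, hx2⟩ := hB.mφ hz
      exact ⟨x, ball_subset_closedBall hx, hx2⟩
    refine hε _ (hm z₁ h1) _ (hm z₂ h2) ?_
    obtain ⟨a, ha1, ha2, rfl⟩ := ga_surj hζ hr0 e1
    obtain ⟨b, hb1, hb2, rfl⟩ := ga_surj hζ hr0 e2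
    rcases le_total a b with hab | hba
    · rw [norm_sub_rev]
      exact osc hB.dφ hζ hr0 hε0.le hL hab ha1 hb2 h1 h2
    · exact osc hB.dφ hζ hr0 hε0.le hL hba hb1 ha2 h2 h1
  have hr1 : r < 1 := hrR.trans_le hR1
  have h0D : ga ζ r 0 ∈ D := by
    rw [hD, ga_mem hζ hr0, Real.cos_zero]
    linarith
  set x0 : ℂ := f.symm (φ (ga ζ r 0)) with hx0
  have hx0n : 1 - d < ‖x0‖ := hR3 _ h0D (by rw [ga_sub ζ hζ hr0]; exact hrR)
  have hx0p : 0 < ‖x0‖ := by linarith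
  set n : ℂ := x0 / ‖x0‖ with hn
  have hn1 : ‖n‖ = 1 := by
    rw [hn, norm_div, Complex.norm_real, norm_norm, div_self hx0p.ne']
  have hxn : (x0 * (starRingEnd ℂ) n).re = ‖x0‖ := by
    have h1 : x0 * (starRingEnd ℂ) n = (‖x0‖ : ℂ) := by
      have h2 : (‖x0‖ : ℂ) ≠ 0 := by exact_mod_cast hx0p.ne'
      rw [hn, map_div₀, Complex.conj_ofReal, ← mul_div_assoc, Complex.mul_conj,
        Complex.normSq_eq_norm_sq, div_eq_iff h2]
      push_cast
      ring
    rw [h1, Complex.ofReal_re]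
  set W : Set ℂ := D ∩ {x | (x * (starRingEnd ℂ) n).re ≤ 1 - 3 * d} with hW
  have hWc : IsPreconnected W := by
    have h1 : Convex ℝ {x : ℂ | (x * (starRingEnd ℂ) n).re ≤ 1 - 3 * d} := by
      refine convex_halfSpace_le (f := fun x : ℂ => (x * (starRingEnd ℂ) n).re) ?_ _
      constructor
      · intro x y
        simp only [add_mul, Complex.add_re]
      · intro c x
        rw [smul_mul_assoc, Complex.real_smul, Complex.re_ofReal_mul, smul_eq_mul]
    exact ((convex_ball (0 : ℂ) 1).inter h1).isPreconnected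
  have h0W : (0 : ℂ) ∈ W := ⟨mem_ball_self one_pos, by simp; linarith⟩
  have hno : ∀ x ∈ W, ‖ψ (f x) - ζ‖ ≠ r := by
    intro x hx hc
    have h1 := hX _ (hg x hx.1) _ h0D hc (ga_sub ζ hζ hr0 0)
    rw [hGg x hx.1] at h1
    have h2 : ((x0 - x) * (starRingEnd ℂ) n).re ≤ ‖x - x0‖ := by
      refine (Complex.re_le_norm _).trans ?_
      rw [norm_mul, Complex.norm_conj, hn1, mul_one, norm_sub_rev]
    have h3 : ((x0 - x) * (starRingEnd ℂ) n).re = ‖x0‖ - (x * (starRingEnd ℂ) n).re := by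
      rw [sub_mul, Complex.sub_re, hxn]
    have h4 : (x * (starRingEnd ℂ) n).re ≤ 1 - 3 * d := hx.2
    linarith
  refine ⟨r, hr0, n, fun z hz hzr => ?_⟩
  set x : ℂ := f.symm (φ z) with hx
  have hxD : x ∈ D := hG z hz
  have hxW : x ∉ W := by
    intro hxW
    have h1 := hWc.intermediate_value hxW h0W (f := fun x => ‖ψ (f x) - ζ‖)
      ((hgc.mono inter_subset_left).sub continuousOn_const).norm
    have h2 : r ∈ Icc ‖ψ (f x) - ζ‖ ‖ψ (f 0) - ζ‖ := by
      refine ⟨?_, (hrR.trans_le hR2).le⟩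
      rw [hx, hgG z hz]
      exact hzr.le
    obtain ⟨y, hy, hy2⟩ := h1 h2
    exact hno y hy hy2
  have h1 : 1 - 3 * d < (x * (starRingEnd ℂ) n).re := by
    by_contra hc
    push Not at hc
    exact hxW ⟨hxD, hc⟩
  have h2 : ‖x - n‖ ^ 2 = ‖x‖ ^ 2 + ‖n‖ ^ 2 - 2 * (x * (starRingEnd ℂ) n).re := by
    rw [← Complex.normSq_eq_norm_sq, ← Complex.normSq_eq_norm_sq, ← Complex.normSq_eq_norm_sq,
      Complex.normSq_sub]
  have h3 : ‖x‖ < 1 := mem_ball_zero_iff.1 hxD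
  have h4 : ‖x - n‖ ^ 2 < η ^ 2 := by
    rw [h2, hn1]
    have h5 : ‖x‖ ^ 2 ≤ 1 := by
      have := norm_nonneg x
      nlinarith
    linarith
  exact lt_of_pow_lt_pow_left₀ 2 hη.le h4

end C1

/-- **C1** -/
theorem c1 (h : S_LA) : S_C1 := by
  intro f φ ψ hB ζ hζ
  have hne : (𝓝[ball (0 : ℂ) 1] ζ).NeBot := by
    rw [← mem_closure_iff_nhdsWithin_neBot, closure_ball _ one_ne_zero, mem_closedBall_zero_iff, hζ]
  have hC : Cauchy (map (fun z => f.symm (φ z)) (𝓝[ball (0 : ℂ) 1] ζ)) := by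
    rw [Metric.cauchy_iff]
    refine ⟨inferInstance, fun ε hε => ?_⟩
    obtain ⟨r, hr, n, hn⟩ := C1.stepA h hB hζ (half_pos hε)
    refine ⟨ball n (ε / 2), ?_, fun x hx y hy => ?_⟩
    · rw [mem_map, Metric.mem_nhdsWithin_iff]
      refine ⟨r, hr, fun z hz => ?_⟩
      rw [mem_preimage, mem_ball, dist_eq_norm]
      exact hn z hz.2 (by rw [← dist_eq_norm]; exact hz.1)
    · calc dist x y ≤ dist x n + dist y n := dist_triangle_right _ _ _
        _ < ε / 2 + ε / 2 := add_lt_add hx hy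
        _ = ε := add_halves ε
  obtain ⟨ξ, hξ⟩ := CompleteSpace.complete hC
  exact ⟨ξ, hξ⟩

end Pool.Agent.N565.SH
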